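import Pool.Agent.Helper8.CH.Cnt
import Pool.Agent.Helper70.CH.Slope
import Pool.Agent.Helper70.CH.Pairs
import Pool.Agent.Helper87.CH.Bd
import Pool.Agent.Helper68.CH.Load
import Pool.Agent.Helper72.CH.Exist
import Pool.Agent.Helper72.CH.Opt

/-!
# Project CH, module O: the choice of the parameters

`lower_mix_of` reduces the mixed lower bound for the clique game to the chain of the phases
(`ChainStmt`).
-/

set_option autoImplicit false
set_option maxHeartbeats 4000000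

namespace Pool.Agent.Helper75.CG

open scoped Classical
open Finset Filter Topology
open Pool.Agent.Helper65.CliqueGame

/-- The statement of `Setup.chain` (CH-H) for fixed `m` and `R`. -/
def ChainStmt (m R : ℕ) : Prop := ∃ K : ℝ, 0 < K ∧ ∀ {V Δ : Type} [Fintype V] [Fintype Δ]
    {n q : ℕ} (X : Setup V Δ) (_ : V ↪ Fin n) (G : Finset V → ℝ) (ν E : ℝ) (zm D : ℕ),
    X.m = m → X.R = R → X.Sz G ν E zm D → 0 < X.cnt ∅ →
    (∀ A, X.Adm A → ∑ S ∈ X.SS0.filter (fun S => S ⊆ A),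
      (X.cnt S : ℝ) * X.w0 S / (X.cnt ∅ * G S) ≤ 1 / 4) →
    K * Setup.err ν E zm D ≤ 1 / 2 →
    q ≤ ∑ j ∈ range (X.R + 1), X.bs j * X.k j →
    MakerWins n m q true ∅ ∅

namespace MixAux

theorem corners' {m c ρ L U T : ℝ} (hm : 0 ≤ m) (hc : 0 ≤ c) (hU : 0 ≤ U) (hT : 0 ≤ T)
    (h10 : U / 2 ≤ (1 - ρ) * L) (h01 : c * m * T / 2 ≤ (1 - ρ) * L)
    (h11 : U ^ 2 / 2 + c * m * T ^ 2 / 2 + c * T * U ≤ (1 - ρ) * L * (U + T)) :
    ∀ u τ : ℝ, 0 ≤ u → u ≤ U → 0 ≤ τ → τ ≤ T →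
      u ^ 2 / 2 + c * m * τ ^ 2 / 2 + c * τ * u ≤ (1 - ρ) * L * (u + τ) := by
  intro u τ hu huU hτ hτT
  set X := (1 - ρ) * L with hX
  -- corner values along u
  have key1 : ∀ t : ℝ, 0 ≤ t → t ≤ T → c * m * t ^ 2 / 2 ≤ X * t := by
    intro t ht htT
    have h1 : c * m * t / 2 ≤ X := by
      have : c * m * t ≤ c * m * T := mul_le_mul_of_nonneg_left htT (mul_nonneg hc hm)
      linarith
    nlinarith
  have key2 : ∀ t : ℝ, 0 ≤ t → t ≤ T → U ^ 2 / 2 + c * m * t ^ 2 / 2 + c * t * U ≤ X * (U + t) := by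
    intro t ht htT
    -- concave in t: values at 0 and T
    by_cases hT0 : T = 0
    · have : t = 0 := le_antisymm (hT0 ▸ htT) ht
      subst this
      nlinarith
    · have hTp : 0 < T := lt_of_le_of_ne hT (Ne.symm hT0)
      have h0 : U ^ 2 / 2 ≤ X * U := by nlinarith
      -- f(t) = X (U+t) - U²/2 - c m t²/2 - c t U ;  T f(t) ≥ (T - t) f(0) + t f(T)
      have h2 : 0 ≤ (T - t) * (X * U - U ^ 2 / 2) := mul_nonneg (by linarith) (by linarith)
      have h3 : 0 ≤ t * (X * (U + T) - (U ^ 2 / 2 + c * m * T ^ 2 / 2 + c * T * U)) :=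
        mul_nonneg ht (by linarith)
      have h4 : 0 ≤ c * m * (t * (T - t) * T) / 2 := by
        have : 0 ≤ t * (T - t) * T := mul_nonneg (mul_nonneg ht (by linarith)) hT
        have := mul_nonneg (mul_nonneg hc hm) this
        linarith
      have h5 : T * (X * (U + t) - (U ^ 2 / 2 + c * m * t ^ 2 / 2 + c * t * U)) =
          (T - t) * (X * U - U ^ 2 / 2) +
          t * (X * (U + T) - (U ^ 2 / 2 + c * m * T ^ 2 / 2 + c * T * U)) +
          c * m * (t * (T - t) * T) / 2 := by ring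
      have h6 : 0 ≤ T * (X * (U + t) - (U ^ 2 / 2 + c * m * t ^ 2 / 2 + c * t * U)) := by
        rw [h5]; linarith
      have h7 := nonneg_of_mul_nonneg_right h6 hTp
      linarith
  by_cases hU0 : U = 0
  · have : u = 0 := le_antisymm (hU0 ▸ huU) hu
    subst this
    have := key1 τ hτ hτT
    nlinarith
  · have hUp : 0 < U := lt_of_le_of_ne hU (Ne.symm hU0)
    have h1 := key1 τ hτ hτT
    have h2 := key2 τ hτ hτT
    have h5 : U * (X * (u + τ) - (u ^ 2 / 2 + c * m * τ ^ 2 / 2 + c * τ * u)) =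
        (U - u) * (X * τ - c * m * τ ^ 2 / 2) +
        u * (X * (U + τ) - (U ^ 2 / 2 + c * m * τ ^ 2 / 2 + c * τ * U)) +
        u * (U - u) * U / 2 := by ring
    have h6 : 0 ≤ U * (X * (u + τ) - (u ^ 2 / 2 + c * m * τ ^ 2 / 2 + c * τ * u)) := by
      rw [h5]
      have a1 : 0 ≤ (U - u) * (X * τ - c * m * τ ^ 2 / 2) :=
        mul_nonneg (by linarith) (by linarith)
      have a2 : 0 ≤ u * (X * (U + τ) - (U ^ 2 / 2 + c * m * τ ^ 2 / 2 + c * τ * U)) :=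
        mul_nonneg hu (by linarith)
      have a3 : 0 ≤ u * (U - u) * U / 2 := by
        have := mul_nonneg (mul_nonneg hu (by linarith : 0 ≤ U - u)) hU
        linarith
      linarith
    have h7 := nonneg_of_mul_nonneg_right h6 hUp
    linarith

theorem mix_core (m R : ℕ) (hm : 2 ≤ m) (hC : ChainStmt m R) : ∃ K : ℝ, 0 < K ∧
    ∀ (n q l zz D em kb kR : ℕ) (e : ℕ → ℕ) (g Γ ρ η s0 K0 : ℝ),
    2 ^ (l + 1) ≤ n → m ≤ 2 ^ zz → (∀ j < R, kb ≤ 2 ^ (l - zz - e j)) → kR ≤ 2 ^ l →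
    (∀ j < R, R - j ≤ e j) → (∀ j < R, e j ≤ em) → zz + D + 2 * em ≤ l → D ≤ zz →
    (∀ j < R, D ≤ l - zz - e j) →
    (∀ j < R, ∀ i < R, j < i → e i + D ≤ e j) → (∀ j < R, D ≤ e j) →
    (∀ j < R, ∀ i < R, j < i → 2 * e i + D ≤ zz + e j) →
    0 ≤ g → 0 ≤ Γ → 0 < ρ → 0 ≤ η → 0 ≤ s0 → 1 ≤ K0 → (kb : ℝ) ≤ K0 → (kR : ℝ) ≤ K0 →
    0 < l →
    (2 * g + Γ) + m * Real.logb 2 m ≤ zz →
    (∀ j < R, m * (2 * g + Γ) ≤ ((l - zz - e j : ℕ) : ℝ)) → m * (2 * g + Γ) ≤ (l : ℝ) →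
    (∀ j < R, (1 - η) * l ≤ ((l - zz - e j : ℕ) : ℝ)) →
    (Real.logb 2 m + Real.logb 2 K0) + s0 / 2 + Real.logb 2 (m + 1) * s0 ≤ g →
    m * ((2 * (m : ℝ) + 2) * l) ≤ ρ / 2 * l * s0 →
    (Γ + g + (Real.logb 2 m + Real.logb 2 K0)) * m + (m : ℝ) ^ 2 * kb / 2 + η * l ≤ ρ / 2 * l →
    (kR : ℝ) / 2 ≤ (1 - ρ) * l → Real.logb 2 (m + 1) * m * (R * kb) / 2 ≤ (1 - ρ) * l →
    (kR : ℝ) ^ 2 / 2 + Real.logb 2 (m + 1) * m * (R * kb) ^ 2 / 2 +
      Real.logb 2 (m + 1) * (R * kb) * kR ≤ (1 - ρ) * l * (kR + R * kb) →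
    ((m * R * kb + kR : ℕ) : ℝ) * (2 : ℝ) ^ (-g) ≤ 1 / 8 →
    K * Setup.err ((2 : ℝ) ^ (-Γ))
      ((2 : ℝ) ^ ((2 * (m : ℝ) + 2) * (2 * g + Real.logb 2 m))) D D ≤ 1 / 2 →
    q ≤ m * R * kb + kR →
    MakerWins n m q true ∅ ∅ := by
  obtain ⟨K, hK, hchain⟩ := hC
  refine ⟨K, hK, ?_⟩
  intro n q l zz D em kb kR e g Γ ρ η s0 K0 hn hmz hkb hkR hRe hem hbig hDz hDy hee hDe hee2
    hg hΓ hρ hη hs0 hK0 hkb0 hkR0 hl hslz hsly hslyR hyη h1 h2 h3 h10 h01 h11 h8 herr hq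
  set z : ℕ → ℕ := fun j => if j < R then zz else 0 with hz
  set y : ℕ → ℕ := fun j => if j < R then l - zz - e j else l with hy
  set k : ℕ → ℕ := fun j => if j < R then kb else kR with hk
  have zj : ∀ j < R, z j = zz := fun j hj => by simp [hz, hj]
  have zR : z R = 0 := by simp [hz]
  have yj : ∀ j < R, y j = l - zz - e j := fun j hj => by simp [hy, hj]
  have yR : y R = l := by simp [hy]
  have kj : ∀ j < R, k j = kb := fun j hj => by simp [hk, hj]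
  have kRR : k R = kR := by simp [hk]
  have hele : ∀ j < R, zz + e j ≤ l := fun j hj => by have := hem j hj; omega
  obtain ⟨V, Δ, iV, iΔ, X, emb, XR, Xm, Xz, Xy, Xk⟩ := exists_setup R m hm z y k zR
    (fun j hj => by rw [zj j hj]; exact hmz)
    (fun j hj => by
      rcases Nat.lt_or_ge j R with h | h
      · rw [yj j h, kj j h]; exact hkb j h
      · have : j = R := le_antisymm hj h
        subst this
        rw [yR, kRR]; exact hkR)
    l n yR (fun j hj => by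
      rw [yj j hj, zj j hj]
      have := hRe j hj; have := hele j hj; omega) hn
  have hXy : ∀ j ≤ X.R, (j < R ∧ X.y j = l - zz - e j) ∨ (j = R ∧ X.y j = l) := by
    intro j hj
    rw [XR] at hj
    rw [Xy]
    rcases Nat.lt_or_ge j R with h | h
    · exact Or.inl ⟨h, yj j h⟩
    · exact Or.inr ⟨le_antisymm hj h, by rw [le_antisymm hj h]; exact yR⟩
  have hm1 : (1 : ℝ) ≤ m := by exact_mod_cast (by omega : 1 ≤ m)
  have hc0 : 0 ≤ Real.logb 2 ((m : ℝ) + 1) := Real.logb_nonneg (by norm_num) (by linarith)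
  have hlm0 : 0 ≤ Real.logb 2 (m : ℝ) := Real.logb_nonneg (by norm_num) hm1
  have hlK0 : 0 ≤ Real.logb 2 K0 := Real.logb_nonneg (by norm_num) hK0
  have hlR : (0 : ℝ) < l := by exact_mod_cast hl
  -- totals
  have hsumk : ∑ j ∈ range X.R, (X.k j : ℝ) = R * kb := by
    rw [XR, Xk]
    rw [Finset.sum_congr rfl (fun j hj => by rw [kj j (Finset.mem_range.1 hj)]),
      Finset.sum_const, Finset.card_range, nsmul_eq_mul]
  have htot : ∑ j ∈ range (X.R + 1), X.bs j * X.k j = m * R * kb + kR := by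
    rw [Finset.sum_range_succ]
    have h1 : X.bs X.R = 1 := by simp [Setup.bs]
    rw [h1, XR, Xk, kRR, one_mul]
    congr 1
    have h2 : ∀ j ∈ range R, X.bs j * k j = m * kb := by
      intro j hj
      rw [kj j (Finset.mem_range.1 hj)]
      have : X.bs j = m := by
        unfold Setup.bs
        rw [XR, if_pos (Finset.mem_range.1 hj), Xm]
      rw [this]
    rw [Finset.sum_congr rfl h2, Finset.sum_const, Finset.card_range, smul_eq_mul]
    ring
  set G := X.GG g Γ ((2 * (m : ℝ) + 2) * l) with hG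
  set ν : ℝ := (2 : ℝ) ^ (-Γ) with hν
  set E : ℝ := (2 : ℝ) ^ ((2 * (m : ℝ) + 2) * (2 * g + Real.logb 2 m)) with hE
  have hSz : X.Sz G ν E D D := by
    refine ⟨?_, ?_, ?_, ?_, ?_, ?_, ?_, ?_, ?_, ?_, ?_⟩
    · intro S
      exact Real.rpow_pos_of_pos (by norm_num) _
    · exact (Real.rpow_pos_of_pos (by norm_num) _).le
    · exact Real.rpow_le_one_of_one_le_of_nonpos (by norm_num) (by linarith)
    · exact Real.one_le_rpow (by norm_num) (by positivity)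
    · refine X.GG_slope hg hΓ ?_ ?_
      · intro j hj
        rw [XR] at hj
        rw [Xm, Xz, zj j hj]
        exact hslz
      · intro j hj
        rw [Xm]
        rcases hXy j hj with ⟨h, h'⟩ | ⟨h, h'⟩
        · rw [h']; exact hsly j h
        · rw [h']; exact hslyR
    · intro j hj
      rw [XR] at hj
      rw [Xz, zj j hj]; exact hDz
    · intro j hj
      rcases hXy j hj with ⟨h, h'⟩ | ⟨h, h'⟩
      · rw [h']; exact hDy j h
      · rw [h']; omega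
    · have hbd := X.GG_bd (g := g) (Γ := Γ) (Tm := (2 * (m : ℝ) + 2) * l) hg hΓ ?_
      · intro j hj T hT hF hTc
        have := hbd j hj T hT hF hTc
        rw [hE, hG]
        rw [Xm] at this
        exact this
      intro i hi
      rw [Xm]
      refine mul_le_mul_of_nonneg_left ?_ (by positivity)
      have : X.y i + X.z i ≤ l := by
        rcases hXy i hi with ⟨h, h'⟩ | ⟨h, h'⟩
        · rw [h', Xz, zj i h]; have := hele i h; omega
        · rw [h', Xz, h, zR]; omega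
      exact_mod_cast this
    · intro i hi j hj l' hl'
      have A : ∀ j ≤ X.R, l ≤ X.y j + X.z j + em := by
        intro j hj
        rcases hXy j hj with ⟨h, h'⟩ | ⟨h, h'⟩
        · rw [h', Xz, zj j h]; have := hele j h; have := hem j h; omega
        · rw [h', Xz, h, zR]; omega
      have B : X.y i + 2 * X.z i ≤ l + zz := by
        rcases hXy i hi with ⟨h, h'⟩ | ⟨h, h'⟩
        · rw [h', Xz, zj i h]; have := hele i h; omega
        · rw [h', Xz, h, zR]; omega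
      have := A j hj; have := A l' hl'
      omega
    · intro j hj i hi hji
      have hj' : j < R := by rw [← XR]; exact hj
      have e1 : X.y j = l - zz - e j := by rw [Xy]; exact yj j hj'
      have e2 : X.z j = zz := by rw [Xz]; exact zj j hj'
      rw [e1, e2]
      have := hele j hj'
      rcases hXy i hi with ⟨h, h'⟩ | ⟨h, h'⟩
      · rw [h', Xz, zj i h]; have := hele i h; have := hee j hj' i h hji; omega
      · rw [h', Xz, h, zR]; have := hDe j hj'; omega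
    · intro j hj i hi l' hl' hji hjl
      have hj' : j < R := by rw [← XR]; exact hj
      have e1 : X.y j = l - zz - e j := by rw [Xy]; exact yj j hj'
      have e3 : X.y X.R = l := by rw [Xy, XR]; exact yR
      rw [e1, e3]
      have h0 := hele j hj'
      have hD' := hDe j hj'
      rcases hXy i hi with ⟨h, h'⟩ | ⟨h, h'⟩
      · have a1 := hele i h
        have a2 := hee2 j hj' i h hji
        rcases hXy l' hl' with ⟨k1, k'⟩ | ⟨k1, k'⟩
        · have a3 := hele l' k1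
          have a4 := hee2 j hj' l' k1 hjl
          rw [h', k', Xz, zj i h, zj l' k1]; omega
        · rw [h', k', Xz, zj i h, k1, zR]; omega
      · rcases hXy l' hl' with ⟨k1, k'⟩ | ⟨k1, k'⟩
        · have a3 := hele l' k1
          have a4 := hee2 j hj' l' k1 hjl
          rw [h', k', Xz, h, zR, zj l' k1]; omega
        · rw [h', k', Xz, h, k1, zR]; omega
  refine hchain X emb G ν E D D Xm XR hSz X.exists_adm ?_ herr (by rw [htot]; exact hq)
  refine X.load_all (g := g) ?_ (by rw [htot]; exact h8)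
  intro S hS
  refine X.load_one hK0 ?_ hS ?_
  · intro j hj
    rw [XR] at hj
    rw [Xk]
    rcases Nat.lt_or_ge j R with h | h
    · rw [kj j h]; exact hkb0
    · rw [le_antisymm hj h, kRR]; exact hkR0
  · refine X.star_ineq (L := l) (ρ := ρ) (η := η) (s0 := s0) (K1 := kb) hg hΓ (by rw [Xm]; linarith)
      (by rw [Xm]; exact hc0) hlR hρ hη hs0 (by positivity) ?_ ?_ (by rw [Xm]; exact h1)
      (by rw [Xm]; exact h2) (by rw [Xm]; exact h3) ?_ hS
    · intro j hj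
      rcases hXy j hj with ⟨h, h'⟩ | ⟨h, h'⟩
      · rw [h']; exact hyη j h
      · rw [h']; nlinarith
    · intro j hj
      rw [XR] at hj
      rw [Xk, kj j hj]
    · rw [hsumk, Xm]
      have : (X.k X.R : ℝ) = kR := by rw [Xk, XR, kRR]
      rw [this]
      exact corners' (by linarith) hc0 (by positivity) (by positivity) h10 h01 (by linarith)

end MixAux


namespace MixAux

theorem ev_log {A C δ : ℝ} (hA : 0 < A) (hδ : 0 < δ) :
    ∀ᶠ l : ℕ in atTop, Real.logb 2 (A * l) + C ≤ δ * l := by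
  have h1 : Tendsto (fun x : ℝ => Real.log x / x) atTop (𝓝 0) := by
    simpa using Real.isLittleO_log_id_atTop.tendsto_div_nhds_zero
  have h2 : Tendsto (fun l : ℕ => Real.log (l : ℝ) / (l : ℝ)) atTop (𝓝 0) :=
    h1.comp tendsto_natCast_atTop_atTop
  have hl2 : 0 < Real.log 2 := Real.log_pos (by norm_num)
  have h3 : ∀ᶠ l : ℕ in atTop, Real.log (l : ℝ) / (l : ℝ) < δ / 2 * Real.log 2 :=
    h2.eventually (gt_mem_nhds (by positivity))
  have h4 : ∀ᶠ l : ℕ in atTop, (Real.logb 2 A + C) / (δ / 2) ≤ (l : ℝ) :=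
    (tendsto_natCast_atTop_atTop (R := ℝ)).eventually_ge_atTop _
  filter_upwards [h3, h4, eventually_ge_atTop 1] with l h5 h6 h7
  have hl : (0 : ℝ) < l := by exact_mod_cast h7
  rw [Real.logb_mul hA.ne' hl.ne']
  rw [div_lt_iff₀ hl] at h5
  have h8 : Real.logb 2 (l : ℝ) ≤ δ / 2 * l := by
    unfold Real.logb
    rw [div_le_iff₀ hl2]
    nlinarith
  rw [div_le_iff₀ (by positivity)] at h6
  linarith

theorem ev_lin {C δ : ℝ} (hδ : 0 < δ) : ∀ᶠ l : ℕ in atTop, C ≤ δ * l := by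
  have h4 : ∀ᶠ l : ℕ in atTop, C / δ ≤ (l : ℝ) :=
    (tendsto_natCast_atTop_atTop (R := ℝ)).eventually_ge_atTop _
  filter_upwards [h4] with l h
  rw [div_le_iff₀ hδ] at h
  linarith

theorem exists_t {m c a b : ℝ} (ha2 : a < 2) (hb2 : c * m * b < 2)
    (hF : a ^ 2 / 2 + c * m * b ^ 2 / 2 + c * a * b < a + b) :
    ∃ t : ℝ, 0 < t ∧ t ≤ 1 ∧ (a + 2 * t) / 2 ≤ 1 - t ∧ c * m * (b + t) / 2 ≤ 1 - t ∧
      (a + 2 * t) ^ 2 / 2 + c * m * (b + t) ^ 2 / 2 + c * (b + t) * (a + 2 * t) ≤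
        (1 - t) * (a + b) := by
  have c1 : ∀ᶠ t : ℝ in 𝓝 0, (a + 2 * t) / 2 < 1 - t := by
    have h1 : ContinuousAt (fun t : ℝ => (a + 2 * t) / 2) 0 := by fun_prop
    have h2 : ContinuousAt (fun t : ℝ => 1 - t) 0 := by fun_prop
    exact h1.eventually_lt h2 (by norm_num; linarith)
  have c2 : ∀ᶠ t : ℝ in 𝓝 0, c * m * (b + t) / 2 < 1 - t := by
    have h1 : ContinuousAt (fun t : ℝ => c * m * (b + t) / 2) 0 := by fun_prop
    have h2 : ContinuousAt (fun t : ℝ => 1 - t) 0 := by fun_prop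
    exact h1.eventually_lt h2 (by norm_num; linarith)
  have c3 : ∀ᶠ t : ℝ in 𝓝 0, (a + 2 * t) ^ 2 / 2 + c * m * (b + t) ^ 2 / 2 +
      c * (b + t) * (a + 2 * t) < (1 - t) * (a + b) := by
    have h1 : ContinuousAt (fun t : ℝ => (a + 2 * t) ^ 2 / 2 + c * m * (b + t) ^ 2 / 2 +
      c * (b + t) * (a + 2 * t)) 0 := by fun_prop
    have h2 : ContinuousAt (fun t : ℝ => (1 - t) * (a + b)) 0 := by fun_prop
    refine h1.eventually_lt h2 ?_
    norm_num
    nlinarith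
  have c4 : ∀ᶠ t : ℝ in 𝓝 0, t < 1 := gt_mem_nhds (by norm_num)
  have hall := (c1.and (c2.and (c3.and c4)))
  have hw : ∀ᶠ t : ℝ in 𝓝[>] 0, ((a + 2 * t) / 2 < 1 - t ∧ c * m * (b + t) / 2 < 1 - t ∧
      (a + 2 * t) ^ 2 / 2 + c * m * (b + t) ^ 2 / 2 +
      c * (b + t) * (a + 2 * t) < (1 - t) * (a + b) ∧ t < 1) ∧ t ∈ Set.Ioi (0 : ℝ) :=
    (hall.filter_mono nhdsWithin_le_nhds).and self_mem_nhdsWithin
  obtain ⟨t, ⟨h1, h2, h3, h4⟩, h5⟩ := hw.exists
  exact ⟨t, h5, h4.le, h1.le, h2.le, h3.le⟩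

/-- the corner inequality after rounding -/
theorem corner_scaled {m c a b t l U T : ℝ} (hm : 0 ≤ m) (hc : 0 ≤ c) (ha : 0 < a) (hb : 0 < b)
    (ht : 0 < t) (ht1 : t ≤ 1) (hl : 0 < l)
    (hA3 : (a + 2 * t) ^ 2 / 2 + c * m * (b + t) ^ 2 / 2 + c * (b + t) * (a + 2 * t) ≤
        (1 - t) * (a + b)) (h1 : U ≤ (a + 2 * t) * l) (h2 : T ≤ (b + t) * l)
    (h3 : a * l ≤ U) (h4 : b * l ≤ T) :
    U ^ 2 / 2 + c * m * T ^ 2 / 2 + c * T * U ≤ (1 - t) * l * (U + T) := by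
  have hU : 0 ≤ U := le_trans (by positivity) h3
  have hT : 0 ≤ T := le_trans (by positivity) h4
  have g1 : U ^ 2 ≤ ((a + 2 * t) * l) ^ 2 := pow_le_pow_left₀ hU h1 2
  have g2 : T ^ 2 ≤ ((b + t) * l) ^ 2 := pow_le_pow_left₀ hT h2 2
  have g3 : T * U ≤ ((b + t) * l) * ((a + 2 * t) * l) := mul_le_mul h2 h1 hU (by positivity)
  have g4 : c * m * T ^ 2 ≤ c * m * ((b + t) * l) ^ 2 := mul_le_mul_of_nonneg_left g2 (by positivity)
  have g5 : c * (T * U) ≤ c * (((b + t) * l) * ((a + 2 * t) * l)) :=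
    mul_le_mul_of_nonneg_left g3 hc
  have g6 : ((a + 2 * t) ^ 2 / 2 + c * m * (b + t) ^ 2 / 2 + c * (b + t) * (a + 2 * t)) * l ^ 2 ≤
      (1 - t) * (a + b) * l ^ 2 := mul_le_mul_of_nonneg_right hA3 (by positivity)
  have g7 : (1 - t) * l * ((a + b) * l) ≤ (1 - t) * l * (U + T) := by
    apply mul_le_mul_of_nonneg_left
    · linarith
    · have : 0 ≤ 1 - t := by linarith
      positivity
  have e1 : ((a + 2 * t) ^ 2 / 2 + c * m * (b + t) ^ 2 / 2 + c * (b + t) * (a + 2 * t)) * l ^ 2 =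
      ((a + 2 * t) * l) ^ 2 / 2 + c * m * ((b + t) * l) ^ 2 / 2 +
        c * (((b + t) * l) * ((a + 2 * t) * l)) := by ring
  have e2 : (1 - t) * l * ((a + b) * l) = (1 - t) * (a + b) * l ^ 2 := by ring
  have e3 : c * T * U = c * (T * U) := by ring
  rw [e1] at g6
  rw [e2] at g7
  rw [e3]
  linarith

theorem err_small {K κ l C1 : ℝ} {D : ℕ} {E ν : ℝ} (hK : 0 < K) (hκl : 0 < κ * l)
    (hD2 : κ * l / 4 - 1 < D) (hE : E = (2 : ℝ) ^ (κ * l / 32 + C1))
    (hν : ν = (2 : ℝ) ^ (-(κ * l / 8)))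
    (f9 : Real.logb 2 (10 * K) + C1 ≤ 3 / 32 * κ * l) :
    K * Setup.err ν E D D ≤ 1 / 2 := by
  have hD : ((1 : ℝ) / 2) ^ D ≤ 2 * (2 : ℝ) ^ (-(κ * l / 8)) := by
    have h1 : ((1 : ℝ) / 2) ^ D = (2 : ℝ) ^ (-(D : ℝ)) := by
      rw [Real.rpow_neg (by norm_num), Real.rpow_natCast, one_div, inv_pow]
    rw [h1]
    have h2 : (2 : ℝ) * (2 : ℝ) ^ (-(κ * l / 8)) = (2 : ℝ) ^ (1 + -(κ * l / 8)) := by
      rw [Real.rpow_add (by norm_num), Real.rpow_one]
    rw [h2]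
    apply Real.rpow_le_rpow_of_exponent_le (by norm_num)
    linarith
  have hν0 : (0 : ℝ) < (2 : ℝ) ^ (-(κ * l / 8)) := Real.rpow_pos_of_pos (by norm_num) _
  unfold Setup.err
  rw [hE, hν]
  have hE0 : (0 : ℝ) < (2 : ℝ) ^ (κ * l / 32 + C1) := Real.rpow_pos_of_pos (by norm_num) _
  have h1 : (2 : ℝ) ^ (-(κ * l / 8)) + (1 / 2) ^ D + (1 / 2) ^ D ≤ 5 * (2 : ℝ) ^ (-(κ * l / 8)) := by
    linarith
  have h2 : (2 : ℝ) ^ (κ * l / 32 + C1) * (5 * (2 : ℝ) ^ (-(κ * l / 8))) =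
      5 * (2 : ℝ) ^ (C1 - 3 / 32 * κ * l) := by
    rw [mul_left_comm, ← Real.rpow_add (by norm_num)]
    congr 2
    ring
  have h3 : (2 : ℝ) ^ (C1 - 3 / 32 * κ * l) ≤ (10 * K)⁻¹ := by
    have h4 : (10 * K)⁻¹ = (2 : ℝ) ^ (-Real.logb 2 (10 * K)) := by
      rw [Real.rpow_neg (by norm_num), Real.rpow_logb (by norm_num) (by norm_num) (by positivity)]
    rw [h4]
    apply Real.rpow_le_rpow_of_exponent_le (by norm_num)
    linarith
  calc K * ((2 : ℝ) ^ (κ * l / 32 + C1) * ((2 : ℝ) ^ (-(κ * l / 8)) + (1 / 2) ^ D + (1 / 2) ^ D))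
      ≤ K * ((2 : ℝ) ^ (κ * l / 32 + C1) * (5 * (2 : ℝ) ^ (-(κ * l / 8)))) := by
        apply mul_le_mul_of_nonneg_left _ hK.le
        exact mul_le_mul_of_nonneg_left h1 hE0.le
    _ = K * (5 * (2 : ℝ) ^ (C1 - 3 / 32 * κ * l)) := by rw [h2]
    _ ≤ K * (5 * (10 * K)⁻¹) := by
        apply mul_le_mul_of_nonneg_left _ hK.le
        linarith
    _ = 1 / 2 := by field_simp; norm_num

theorem tot_small {A gl N l : ℝ} (hA : 0 < A) (hl : 0 < l) (hN : N ≤ A * l)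
    (f8 : Real.logb 2 (A * l) + 3 ≤ gl) : N * (2 : ℝ) ^ (-gl) ≤ 1 / 8 := by
  have h4 : A * l * 8 ≤ (2 : ℝ) ^ gl := by
    have h5 : Real.logb 2 (A * l * 8) ≤ gl := by
      rw [Real.logb_mul (by positivity) (by norm_num)]
      have : Real.logb 2 8 = 3 := by
        rw [show (8 : ℝ) = 2 ^ (3 : ℕ) by norm_num, Real.logb_pow,
          Real.logb_self_eq_one (by norm_num)]
        norm_num
      rw [this]
      exact f8
    rw [Real.logb_le_iff_le_rpow (by norm_num) (by positivity)] at h5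
    exact h5
  have h5 : (0 : ℝ) < (2 : ℝ) ^ (-gl) := Real.rpow_pos_of_pos (by norm_num) _
  have h6 : (2 : ℝ) ^ gl * (2 : ℝ) ^ (-gl) = 1 := by
    rw [← Real.rpow_add (by norm_num)]; simp
  calc N * (2 : ℝ) ^ (-gl)
      ≤ ((2 : ℝ) ^ gl / 8) * (2 : ℝ) ^ (-gl) :=
        mul_le_mul_of_nonneg_right (by linarith) h5.le
    _ = 1 / 8 := by rw [div_mul_eq_mul_div, h6]

theorem logn_le {l n : ℕ} (hn1 : 2 ^ (l + 1) ≤ n) (hn2 : n < 2 ^ (l + 2)) :
    Real.logb 2 (n : ℝ) ≤ l + 2 := by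
  have h2 : (n : ℝ) ≤ (2 : ℝ) ^ ((l : ℝ) + 2) := by
    have h3 : (n : ℝ) ≤ ((2 ^ (l + 2) : ℕ) : ℝ) := by exact_mod_cast hn2.le
    refine h3.trans (le_of_eq ?_)
    rw [show ((l : ℝ) + 2) = ((l + 2 : ℕ) : ℝ) by push_cast; ring, Real.rpow_natCast]
    push_cast
    ring
  have hn0 : (0 : ℝ) < n := by
    have : 0 < n := lt_of_lt_of_le (by positivity) hn1
    exact_mod_cast this
  rw [Real.logb_le_iff_le_rpow (by norm_num) hn0]
  exact h2

/-- the roundings -/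
theorem sizes {m R l : ℕ} {t a b κ ζ : ℝ} (hm1 : (2 : ℝ) ≤ m) (hR1 : 1 ≤ R) (ha : 0 < a)
    (hb : 0 < b) (ht0 : 0 < t) (ht1 : t ≤ 1) (hκ0 : 0 < κ)
    (hζ : ζ = t / 64) (hκR2 : 2 ^ R * κ ≤ t / 128) (hκζ : κ ≤ ζ)
    (f1 : (m : ℝ) + 1 ≤ ζ * l) (f2 : (a + b + 3) * l ≤ (2 : ℝ) ^ ((l : ℝ) / 2))
    (f3 : (R : ℝ) + 10 ≤ κ * l) (hl100 : 100 ≤ l) (zz em D kb kR : ℕ) (e : ℕ → ℕ)
    (hzz : zz = ⌊ζ * l⌋₊) (he : ∀ j, e j = ⌈2 ^ (R - 1 - j) * κ * l⌉₊)
    (hem : em = ⌈2 ^ R * κ * l⌉₊) (hD : D = ⌊κ * l / 4⌋₊) (hkb : kb = ⌊b * l / R⌋₊ + 1)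
    (hkR : kR = ⌈(a + t) * l⌉₊) :
    m ≤ 2 ^ zz ∧ (∀ j < R, kb ≤ 2 ^ (l - zz - e j)) ∧ kR ≤ 2 ^ l ∧
    (∀ j < R, R - j ≤ e j) ∧ (∀ j < R, e j ≤ em) ∧ zz + D + 2 * em ≤ l ∧ D ≤ zz ∧
    (∀ j < R, D ≤ l - zz - e j) ∧
    (∀ j < R, ∀ i < R, j < i → e i + D ≤ e j) ∧ (∀ j < R, D ≤ e j) ∧
    (∀ j < R, ∀ i < R, j < i → 2 * e i + D ≤ zz + e j) ∧
    (kb : ℝ) ≤ (a + b + 3) * l ∧ (kR : ℝ) ≤ (a + b + 3) * l ∧ ζ * l - 1 < zz ∧
    κ * l / 4 - 1 < D ∧
    (∀ j < R, (l : ℝ) / 2 ≤ ((l - zz - e j : ℕ) : ℝ)) ∧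
    (∀ j < R, (1 - (ζ + 2 ^ R * κ)) * l ≤ ((l - zz - e j : ℕ) : ℝ)) ∧
    b * l / R ≤ (kb : ℝ) ∧ (kb : ℝ) ≤ b * l / R + 1 ∧
    (a + t) * l ≤ (kR : ℝ) ∧ (kR : ℝ) < (a + t) * l + 1 := by
  have hl : (100 : ℝ) ≤ l := by exact_mod_cast hl100
  have hl0 : (0 : ℝ) < l := by linarith only [hl]
  have hRpos : (0 : ℝ) < R := by exact_mod_cast hR1
  have hζ0 : 0 < ζ := by rw [hζ]; positivity
  have zz1 : (zz : ℝ) ≤ ζ * l := by rw [hzz]; exact Nat.floor_le (by positivity)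
  have zz2 : ζ * l - 1 < zz := by
    have := Nat.lt_floor_add_one (ζ * l); rw [hzz]; linarith only [this]
  have e1 : ∀ j, 2 ^ (R - 1 - j) * κ * l ≤ (e j : ℝ) := fun j => by
    rw [he]; exact Nat.le_ceil _
  have e2 : ∀ j, (e j : ℝ) < 2 ^ (R - 1 - j) * κ * l + 1 := fun j => by
    rw [he]; exact Nat.ceil_lt_add_one (by positivity)
  have em1 : 2 ^ R * κ * l ≤ (em : ℝ) := by rw [hem]; exact Nat.le_ceil _
  have em2 : (em : ℝ) < 2 ^ R * κ * l + 1 := by
    rw [hem]; exact Nat.ceil_lt_add_one (by positivity)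
  have D1 : (D : ℝ) ≤ κ * l / 4 := by rw [hD]; exact Nat.floor_le (by positivity)
  have D2 : κ * l / 4 - 1 < D := by
    have := Nat.lt_floor_add_one (κ * l / 4); rw [hD]; linarith only [this]
  have kb1 : b * l / R ≤ (kb : ℝ) := by
    have := Nat.lt_floor_add_one (b * l / R)
    rw [hkb]; push_cast; linarith only [this]
  have kb2 : (kb : ℝ) ≤ b * l / R + 1 := by
    have := Nat.floor_le (show 0 ≤ b * l / R by positivity)
    rw [hkb]; push_cast; linarith only [this]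
  have kR1 : (a + t) * l ≤ (kR : ℝ) := by rw [hkR]; exact Nat.le_ceil _
  have kR2 : (kR : ℝ) < (a + t) * l + 1 := by
    rw [hkR]; exact Nat.ceil_lt_add_one (by positivity)
  set x : ℝ := κ * l with hx
  have hx0 : 0 < x := by positivity
  have pow1 : ∀ j, (1 : ℝ) ≤ 2 ^ (R - 1 - j) := fun j => one_le_pow₀ (by norm_num)
  have powR : ∀ j, (2 : ℝ) ^ (R - 1 - j) * 2 ≤ 2 ^ R := by
    intro j
    rw [← pow_succ]
    exact pow_le_pow_right₀ (by norm_num) (by omega)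
  have hx10 : (10 : ℝ) ≤ x := by linarith only [f3, hRpos]
  have hxR : (R : ℝ) ≤ x := by linarith only [f3]
  have e1' : ∀ j, 2 ^ (R - 1 - j) * x ≤ (e j : ℝ) := fun j => by
    have := e1 j; rwa [mul_assoc] at this
  have e2' : ∀ j, (e j : ℝ) < 2 ^ (R - 1 - j) * x + 1 := fun j => by
    have := e2 j; rwa [mul_assoc] at this
  have em1' : 2 ^ R * x ≤ (em : ℝ) := by rwa [mul_assoc] at em1
  have em2' : (em : ℝ) < 2 ^ R * x + 1 := by rwa [mul_assoc] at em2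
  have xP : ∀ j, x ≤ 2 ^ (R - 1 - j) * x := fun j => le_mul_of_one_le_left hx0.le (pow1 j)
  have hRx : 2 ^ R * x ≤ t / 128 * l := by
    rw [hx, ← mul_assoc]; exact mul_le_mul_of_nonneg_right hκR2 hl0.le
  have PR : ∀ j, 2 ^ (R - 1 - j) * x * 2 ≤ 2 ^ R * x := fun j => by
    have := mul_le_mul_of_nonneg_right (powR j) hx0.le
    calc 2 ^ (R - 1 - j) * x * 2 = 2 ^ (R - 1 - j) * 2 * x := by ring
      _ ≤ _ := this
  have xR : x * 2 ≤ 2 ^ R * x := by
    have := PR 0; have := xP 0; linarith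
  have htl : t * l ≤ l := mul_le_of_le_one_left hl0.le ht1
  have htl0 : 0 < t * l := by positivity
  have hζl : ζ * l = t * l / 64 := by rw [hζ]; ring
  have hRx' : 2 ^ R * x ≤ t * l / 128 := by linarith only [hRx]
  have hxζ : x ≤ ζ * l := mul_le_mul_of_nonneg_right hκζ hl0.le
  have ejle : ∀ j, (e j : ℝ) ≤ t * l / 256 + 1 := fun j => by
    have h1 := PR j
    have h2 := e2' j
    linarith only [h1, h2, hRx']
  have zel : ∀ j, zz + e j ≤ l := by
    intro j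
    have h1 : ((zz + e j : ℕ) : ℝ) ≤ (l : ℕ) := by
      push_cast
      have h2 := ejle j
      linarith only [h2, zz1, hζl, htl, hl]
    exact_mod_cast h1
  have wj : ∀ j, ((l - zz - e j : ℕ) : ℝ) = l - zz - e j := by
    intro j
    have h1 := zel j
    rw [Nat.sub_sub, Nat.cast_sub h1]
    push_cast
    ring
  have wj2 : ∀ j, (l : ℝ) / 2 ≤ ((l - zz - e j : ℕ) : ℝ) := by
    intro j
    rw [wj]
    have h2 := ejle j
    linarith only [h2, zz1, hζl, htl, hl]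
  have hAl : (a + b + 3) * l = a * l + b * l + 3 * l := by ring
  have hal : 0 < a * l := by positivity
  have hbl : 0 < b * l := by positivity
  have hkbA : (kb : ℝ) ≤ (a + b + 3) * l := by
    have h1 : b * l / R ≤ b * l := by
      apply div_le_self hbl.le
      exact_mod_cast hR1
    linarith only [h1, hAl, hal, kb2, hl]
  have hkRA : (kR : ℝ) ≤ (a + b + 3) * l := by
    have h4 : (a + t) * l = a * l + t * l := by ring
    linarith only [h4, hAl, hbl, kR2, htl, hl]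
  have hpow : ∀ w : ℕ, (l : ℝ) / 2 ≤ w → (a + b + 3) * l ≤ (2 : ℝ) ^ w := by
    intro w hw
    refine f2.trans ?_
    rw [← Real.rpow_natCast]
    exact Real.rpow_le_rpow_of_exponent_le (by norm_num) hw
  have P2 : ∀ j i, j < i → i < R → 2 ^ (R - 1 - i) * x * 2 ≤ 2 ^ (R - 1 - j) * x := by
    intro j i hji hi
    have h3 : (2 : ℝ) ^ (R - 1 - i) * 2 ≤ 2 ^ (R - 1 - j) := by
      rw [← pow_succ]
      exact pow_le_pow_right₀ (by norm_num) (by omega)
    calc 2 ^ (R - 1 - i) * x * 2 = 2 ^ (R - 1 - i) * 2 * x := by ring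
      _ ≤ _ := mul_le_mul_of_nonneg_right h3 hx0.le
  refine ⟨?_, ?_, ?_, ?_, ?_, ?_, ?_, ?_, ?_, ?_, ?_, hkbA, hkRA, zz2, D2, fun j _ => wj2 j, ?_,
    kb1, kb2, kR1, kR2⟩
  · have h1 : (m : ℝ) ≤ zz := by linarith only [f1, zz2]
    have h2 : m ≤ zz := by exact_mod_cast h1
    exact h2.trans (Nat.lt_two_pow_self).le
  · intro j _
    have h3 : (kb : ℝ) ≤ (2 : ℝ) ^ (l - zz - e j) := hkbA.trans (hpow _ (wj2 j))
    exact_mod_cast h3
  · have h3 : (kR : ℝ) ≤ (2 : ℝ) ^ l := hkRA.trans (hpow l (by linarith only [hl0]))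
    exact_mod_cast h3
  · intro j _
    have h1 : ((R : ℕ) : ℝ) ≤ e j := by
      have h1 := e1' j
      have h2 := xP j
      linarith only [h1, h2, hxR]
    have h2 : R ≤ e j := by exact_mod_cast h1
    omega
  · intro j _
    have h1 : (e j : ℝ) ≤ em := by
      have h1 := PR j
      have h2 := e2' j
      linarith only [h1, h2, em1', xR, hx10]
    exact_mod_cast h1
  · have h1 : ((zz + D + 2 * em : ℕ) : ℝ) ≤ (l : ℕ) := by
      push_cast
      linarith only [zz1, D1, em2', hxζ, hRx', hζl, htl, hl]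
    exact_mod_cast h1
  · have h1 : (D : ℝ) ≤ zz := by linarith only [D1, zz2, hxζ, hx10]
    exact_mod_cast h1
  · intro j _
    have h1 : (D : ℝ) ≤ ((l - zz - e j : ℕ) : ℝ) := by
      have := wj2 j
      linarith only [this, D1, hxζ, hζl, htl, hl]
    exact_mod_cast h1
  · intro j hj i hi hji
    have h1 : ((e i + D : ℕ) : ℝ) ≤ (e j : ℕ) := by
      push_cast
      have h1 := e2' i
      have h2 := e1' j
      have h3 := P2 j i hji hi
      have h4 := xP i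
      linarith only [h1, h2, h3, h4, D1, hx10]
    exact_mod_cast h1
  · intro j _
    have h1 : (D : ℝ) ≤ (e j : ℕ) := by
      have h2 := e1' j
      have h4 := xP j
      linarith only [h2, h4, D1, hx0]
    exact_mod_cast h1
  · intro j hj i hi hji
    have h1 : ((2 * e i + D : ℕ) : ℝ) ≤ ((zz + e j : ℕ) : ℝ) := by
      push_cast
      have h1 := e2' i
      have h2 := e1' j
      have h3 := P2 j i hji hi
      linarith only [h1, h2, h3, D1, zz2, hxζ, hx10]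
    exact_mod_cast h1
  · intro j _
    rw [wj]
    have h1 := PR j
    have h2 := e2' j
    have h3 : (1 - (ζ + 2 ^ R * κ)) * l = l - ζ * l - 2 ^ R * x := by rw [hx]; ring
    rw [h3]
    linarith only [h1, h2, zz1, xR, hx10]

theorem mix_large (m : ℕ) (hm : 2 ≤ m) (hC : ∀ R, ChainStmt m R) (a b : ℝ) (ha : 0 < a) (hb : 0 < b) (ha2 : a < 2)
    (hb2 : Real.logb 2 (m + 1) * m * b < 2)
    (hF : a ^ 2 / 2 + Real.logb 2 (m + 1) * m * b ^ 2 / 2 + Real.logb 2 (m + 1) * a * b < a + b) :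
    ∀ᶠ l : ℕ in atTop, ∀ n q : ℕ, 2 ^ (l + 1) ≤ n → n < 2 ^ (l + 2) →
      (q : ℝ) ≤ (a + m * b) * Real.logb 2 n → MakerWins n m q true ∅ ∅ := by
  set c := Real.logb 2 ((m : ℝ) + 1) with hc
  have hm1 : (2 : ℝ) ≤ m := by exact_mod_cast hm
  have hc0 : 0 ≤ c := Real.logb_nonneg (by norm_num) (by linarith)
  obtain ⟨t, ht0, ht1, hA1, hA2, hA3⟩ := exists_t ha2 hb2 hF
  set R : ℕ := ⌈8 * (m : ℝ) ^ 2 * b / t⌉₊ + 1 with hR
  have hR1 : 1 ≤ R := by omega
  have hRr : 8 * (m : ℝ) ^ 2 * b / t ≤ R := by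
    have := Nat.le_ceil (8 * (m : ℝ) ^ 2 * b / t)
    rw [hR]; push_cast; linarith
  have hRpos : (0 : ℝ) < R := by exact_mod_cast hR1
  have hmR : (m : ℝ) ^ 2 * (b / R) / 2 ≤ t / 16 := by
    rw [div_le_iff₀ ht0] at hRr
    rw [← mul_div_assoc, div_div, div_le_iff₀ (by positivity)]
    nlinarith
  have h2R : (0 : ℝ) < 2 ^ R := by positivity
  have h2R2 : (2 : ℝ) ≤ 2 ^ R := by
    calc (2 : ℝ) = 2 ^ 1 := by norm_num
      _ ≤ 2 ^ R := pow_le_pow_right₀ (by norm_num) hR1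
  obtain ⟨ζ, hζ⟩ : ∃ ζ : ℝ, ζ = t / 64 := ⟨_, rfl⟩
  obtain ⟨κ, hκ⟩ : ∃ κ : ℝ, κ = t / (64 * m * 2 ^ R) := ⟨_, rfl⟩
  have hκ0 : 0 < κ := by rw [hκ]; positivity
  have hζ0 : 0 < ζ := by rw [hζ]; positivity
  have hκR : 2 ^ R * κ = t / (64 * m) := by rw [hκ]; field_simp
  have hκR2 : 2 ^ R * κ ≤ t / 128 := by
    rw [hκR]
    apply div_le_div_of_nonneg_left ht0.le (by norm_num) (by linarith)
  have hmκ : m * κ ≤ t / 128 := by
    have : m * κ = t / (64 * 2 ^ R) := by rw [hκ]; field_simp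
    rw [this]
    apply div_le_div_of_nonneg_left ht0.le (by norm_num) (by linarith)
  have hκζ : κ ≤ ζ := by
    have : 2 * κ ≤ m * κ := mul_le_mul_of_nonneg_right hm1 hκ0.le
    rw [hζ]; linarith
  obtain ⟨K, hK, hcore⟩ := mix_core m R hm (hC R)
  obtain ⟨s0, hs0⟩ : ∃ s0 : ℝ, s0 = 4 * m * (m + 1) / t := ⟨_, rfl⟩
  have hs00 : 0 < s0 := by rw [hs0]; positivity
  obtain ⟨gg, hgg⟩ : ∃ gg : ℝ, gg = κ / (64 * (2 * m + 2)) := ⟨_, rfl⟩
  have hgg0 : 0 < gg := by rw [hgg]; positivity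
  have hggκ : 64 * gg ≤ κ := by
    have : 64 * gg = κ / (2 * m + 2) := by rw [hgg]; field_simp
    rw [this, div_le_iff₀ (by positivity)]
    nlinarith
  have hA0 : 0 < a + b + 3 := by positivity
  obtain ⟨C1, hC1⟩ : ∃ C1 : ℝ, C1 = (2 * (m : ℝ) + 2) * Real.logb 2 m := ⟨_, rfl⟩
  have hlm0 : 0 ≤ Real.logb 2 (m : ℝ) := Real.logb_nonneg (by norm_num) (by linarith)
  have hC10 : 0 ≤ C1 := by rw [hC1]; positivity
  -- eventual facts
  have f1 := ev_lin (C := m + 1) hζ0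
  have f2 := ev_log (A := a + b + 3) (C := 0) hA0 (show (0 : ℝ) < 1 / 2 by norm_num)
  have f3 := ev_lin (C := (R : ℝ) + 10) hκ0
  have f4 := ev_log (A := a + b + 3) (C := Real.logb 2 m + s0 / 2 + c * s0) hA0 hgg0
  have f5 := ev_lin (C := (m : ℝ) * Real.logb 2 m + 1) (show 0 < ζ / 2 by positivity)
  have f6 := ev_lin (C := (m : ℝ) ^ 2 / 2) (show 0 < t / 8 by positivity)
  have f7 := ev_lin (C := (R : ℝ) + 1) ht0
  have f8 := ev_log (A := m * (b + t) + (a + 2 * t)) (C := 3) (by positivity) hgg0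
  have f9 := ev_lin (C := Real.logb 2 (10 * K) + C1) (show 0 < 3 / 32 * κ by positivity)
  have f10 := ev_lin (C := 2 * (a + m * b)) ht0
  filter_upwards [f1, f2, f3, f4, f5, f6, f7, f8, f9, f10, eventually_ge_atTop 100] with
    l f1 f2 f3 f4 f5 f6 f7 f8 f9 f10 hl100
  intro n q hn1 hn2 hq
  have hl : (100 : ℝ) ≤ l := by exact_mod_cast hl100
  have hl0 : (0 : ℝ) < l := by linarith only [hl]
  have f2' : (a + b + 3) * l ≤ (2 : ℝ) ^ ((l : ℝ) / 2) := by
    have h1 : Real.logb 2 ((a + b + 3) * l) ≤ (l : ℝ) / 2 := by linarith only [f2]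
    rw [Real.logb_le_iff_le_rpow (by norm_num) (by positivity)] at h1
    exact h1
  obtain ⟨zz, hzz⟩ : ∃ zz : ℕ, zz = ⌊ζ * l⌋₊ := ⟨_, rfl⟩
  obtain ⟨e, he⟩ : ∃ e : ℕ → ℕ, ∀ j, e j = ⌈2 ^ (R - 1 - j) * κ * l⌉₊ := ⟨_, fun _ => rfl⟩
  obtain ⟨em, hem⟩ : ∃ em : ℕ, em = ⌈2 ^ R * κ * l⌉₊ := ⟨_, rfl⟩
  obtain ⟨D, hD⟩ : ∃ D : ℕ, D = ⌊κ * l / 4⌋₊ := ⟨_, rfl⟩
  obtain ⟨kb, hkb⟩ : ∃ kb : ℕ, kb = ⌊b * l / R⌋₊ + 1 := ⟨_, rfl⟩
  obtain ⟨kR, hkR⟩ : ∃ kR : ℕ, kR = ⌈(a + t) * l⌉₊ := ⟨_, rfl⟩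
  obtain ⟨s1, s2, s3, s4, s5, s6, s7, s8, s9, s10, s11, s12, s13, s14, s15, s16, s17, s18, s19,
    s20, s21⟩ := sizes hm1 hR1 ha hb ht0 ht1 hκ0 hζ hκR2 hκζ f1 f2' f3 hl100 zz em D kb kR e
      hzz he hem hD hkb hkR
  have hRb0 : (0 : ℝ) ≤ R := hRpos.le
  have hx : 0 < κ * l := by positivity
  have hgx : 64 * (gg * l) ≤ κ * l := by
    have := mul_le_mul_of_nonneg_right hggκ hl0.le
    linarith only [this]
  have hg0 : 0 < gg * l := by positivity
  have hxζ : κ * l ≤ ζ * l := mul_le_mul_of_nonneg_right hκζ hl0.le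
  have hmx : m * (κ * l) ≤ t * l / 128 := by
    have := mul_le_mul_of_nonneg_right hmκ hl0.le
    linarith only [this]
  have htl : t * l ≤ l := mul_le_of_le_one_left hl0.le ht1
  have hsl : m * (2 * (gg * l) + κ * l / 8) ≤ m * (κ * l) := by
    apply mul_le_mul_of_nonneg_left _ (by positivity)
    linarith only [hgx, hx, hg0]
  have U1 : (kR : ℝ) ≤ (a + 2 * t) * l := by
    have h4 : (a + 2 * t) * l = (a + t) * l + t * l := by ring
    linarith only [h4, s21, f7, hRb0]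
  have U2 : a * l ≤ kR := by
    have h4 : (a + t) * l = a * l + t * l := by ring
    have : 0 < t * l := by positivity
    linarith only [h4, s20, this]
  have T1 : (R : ℝ) * kb ≤ (b + t) * l := by
    have h2 : (R : ℝ) * kb ≤ R * (b * l / R + 1) := mul_le_mul_of_nonneg_left s19 hRpos.le
    have h3 : (R : ℝ) * (b * l / R + 1) = b * l + R := by field_simp
    have h4 : (b + t) * l = b * l + t * l := by ring
    linarith only [h2, h3, h4, f7]
  have T2 : b * l ≤ R * kb := by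
    have h2 : (R : ℝ) * (b * l / R) ≤ R * kb := mul_le_mul_of_nonneg_left s18 hRpos.le
    have h3 : (R : ℝ) * (b * l / R) = b * l := by field_simp
    linarith only [h2, h3]
  refine hcore n q l zz D em kb kR e (gg * l) (κ * l / 8) t (ζ + 2 ^ R * κ) s0 ((a + b + 3) * l)
    hn1 s1 s2 s3 s4 s5 s6 s7 s8 s9 s10 s11 hg0.le (by positivity) ht0
    (by positivity) hs00.le ?_ s12 s13 (by omega) ?_ ?_ ?_ s17 ?_ ?_ ?_ ?_ ?_ ?_ ?_ ?_ ?_
  · have h1 : (3 : ℝ) * 100 ≤ (a + b + 3) * l := by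
      apply mul_le_mul _ hl (by norm_num) (by positivity)
      linarith only [ha, hb]
    linarith only [h1]
  · linarith only [hgx, hx, f5, s14, hxζ]
  · intro j hj
    have h2 := s16 j hj
    linarith only [h2, hsl, hmx, htl, hl0]
  · linarith only [hsl, hmx, htl, hl0]
  · linarith only [f4]
  · have : t / 2 * l * s0 = 2 * m * (m + 1) * l := by
      rw [hs0]; field_simp; ring
    rw [this]
    apply le_of_eq
    ring
  · have hcs : 0 ≤ c * s0 := mul_nonneg hc0 hs00.le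
    have h2 : Real.logb 2 m + Real.logb 2 ((a + b + 3) * l) ≤ gg * l := by
      linarith only [f4, hs00, hcs]
    have h3 : (κ * l / 8 + gg * l + (Real.logb 2 m + Real.logb 2 ((a + b + 3) * l))) * m ≤
        (κ * l) * m := by
      apply mul_le_mul_of_nonneg_right _ (by positivity)
      linarith only [h2, hgx, hx, hg0]
    have h5 : (m : ℝ) ^ 2 * kb / 2 ≤ t / 16 * l + (m : ℝ) ^ 2 / 2 := by
      have h6 : (m : ℝ) ^ 2 * kb ≤ (m : ℝ) ^ 2 * (b * l / R + 1) :=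
        mul_le_mul_of_nonneg_left s19 (by positivity)
      have h7 : (m : ℝ) ^ 2 * (b / R) / 2 * l ≤ t / 16 * l :=
        mul_le_mul_of_nonneg_right hmR hl0.le
      have h8 : (m : ℝ) ^ 2 * (b * l / R + 1) / 2 =
          (m : ℝ) ^ 2 * (b / R) / 2 * l + (m : ℝ) ^ 2 / 2 := by
        ring
      linarith only [h6, h7, h8]
    have h9 : (ζ + 2 ^ R * κ) * l ≤ (t / 64 + t / 128) * l := by
      apply mul_le_mul_of_nonneg_right _ hl0.le
      rw [hζ]
      linarith only [hκR2]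
    have htl0 : 0 < t * l := by positivity
    linarith only [h3, h5, h9, hmx, f6, htl0]
  · have h2 : (a + 2 * t) / 2 * l ≤ (1 - t) * l := mul_le_mul_of_nonneg_right hA1 hl0.le
    linarith only [h2, U1]
  · have h2 : c * m * (R * kb) ≤ c * m * ((b + t) * l) :=
      mul_le_mul_of_nonneg_left T1 (by positivity)
    have h3 : c * m * (b + t) / 2 * l ≤ (1 - t) * l := mul_le_mul_of_nonneg_right hA2 hl0.le
    have h4 : c * m * (b + t) / 2 * l = c * m * ((b + t) * l) / 2 := by ring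
    linarith only [h2, h3, h4]
  · exact corner_scaled (by positivity) hc0 ha hb ht0 ht1 hl0 hA3 U1 T1 U2 T2
  · have h3 : ((m * R * kb + kR : ℕ) : ℝ) ≤ (m * (b + t) + (a + 2 * t)) * l := by
      push_cast
      have h4 : (m : ℝ) * (R * kb) ≤ m * ((b + t) * l) := mul_le_mul_of_nonneg_left T1 (by positivity)
      have h5 : (m * (b + t) + (a + 2 * t)) * l = m * ((b + t) * l) + (a + 2 * t) * l := by ring
      have h6 : (m : ℝ) * R * kb = m * (R * kb) := by ring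
      rw [h5, h6]
      linarith only [h4, U1]
    exact tot_small (by positivity) hl0 h3 f8
  · refine err_small (C1 := C1) hK hx s15 ?_ rfl f9
    congr 1
    rw [hC1, hgg]
    field_simp
    ring
  · have h1 := logn_le hn1 hn2
    have h3 : (q : ℝ) ≤ (a + m * b) * (l + 2) :=
      hq.trans (mul_le_mul_of_nonneg_left h1 (by positivity))
    have h5 : (m : ℝ) * (b * l) ≤ m * (R * kb) := mul_le_mul_of_nonneg_left T2 (by positivity)
    have h6 : (q : ℝ) ≤ ((m * R * kb + kR : ℕ) : ℝ) := by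
      push_cast
      have e1 : (a + m * b) * (l + 2) = a * l + m * (b * l) + 2 * (a + m * b) := by ring
      have e2 : (m : ℝ) * R * kb = m * (R * kb) := by ring
      have e3 : (a + t) * l = a * l + t * l := by ring
      rw [e2]
      linarith only [h3, h5, e1, e3, s20, f10]
    exact_mod_cast h6

end MixAux

/-- The mixed lower bound follows from the chain of the phases. -/
theorem lower_mix_of (hC : ∀ m R, 1 ≤ m → ChainStmt m R) : LowerMix := by
  intro m hm a b ha hb ha2 hb2 hF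
  obtain ⟨l₀, hl₀⟩ := eventually_atTop.1
    (MixAux.mix_large m hm (fun R => hC m R (by omega)) a b ha hb ha2 hb2 hF)
  refine ⟨2 ^ (l₀ + 2), fun n hn q hq => ?_⟩
  have hn0 : n ≠ 0 := by
    have : 0 < 2 ^ (l₀ + 2) := by positivity
    omega
  have h1 : l₀ + 2 ≤ Nat.log 2 n := Nat.le_log_of_pow_le (by norm_num) hn
  obtain ⟨l, hl⟩ : ∃ l, Nat.log 2 n = l + 1 := ⟨Nat.log 2 n - 1, by omega⟩
  refine hl₀ l (by omega) n q ?_ ?_ hq
  · rw [← hl]; exact Nat.pow_log_le_self 2 hn0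
  · have := Nat.lt_pow_succ_log_self (b := 2) (by norm_num) n
    rw [hl] at this
    exact this

end Pool.Agent.Helper75.CG
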